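import Pool.Agent.N65.GP.Defs

/-!
# Project GP, part H: the regulator as an imaginary part (helper933 for helper65)
-/

set_option autoImplicit false

namespace Pool.Agent.N933.GP

open Complex Pool.Agent.N65.GP

theorem slit (m z : ℂ) (h : ‖z‖ < ‖m‖) : 1 - z / m ∈ slitPlane := by
  have hm : 0 < ‖m‖ := lt_of_le_of_lt (norm_nonneg _) h
  have h1 : ‖z / m‖ < 1 := by
    rw [norm_div, div_lt_one hm]
    exact h
  rw [mem_slitPlane_iff]
  left
  have h2 := Complex.re_le_norm (z / m)
  rw [sub_re, one_re]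
  linarith

theorem ne1 (m z : ℂ) (h : ‖z‖ < ‖m‖) : z - m ≠ 0 := by
  intro h0
  rw [sub_eq_zero.1 h0] at h
  exact lt_irrefl _ h

theorem ne0 (m z : ℂ) (h : ‖z‖ < ‖m‖) : m ≠ 0 := by
  intro h0
  rw [h0, norm_zero] at h
  exact absurd h (not_lt.2 (norm_nonneg _))

theorem lognorm (m z : ℂ) (h : ‖z‖ < ‖m‖) :
    Real.log ‖z - m‖ = Real.log ‖m‖ + (Complex.log (1 - z / m)).re := by
  have hm := ne0 m z h
  have h1 : 1 - z / m ≠ 0 := slitPlane_ne_zero (slit m z h)
  rw [Complex.log_re, ← Real.log_mul (norm_ne_zero_iff.2 hm) (norm_ne_zero_iff.2 h1), ← norm_mul,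
    norm_sub_rev]
  congr 2
  field_simp

theorem dlog (f : ℝ → ℂ) (hf : ContDiff ℝ 1 f) (m : ℂ) (h : ∀ t, ‖f t‖ < ‖m‖) (t : ℝ) :
    HasDerivAt (fun t => Complex.log (1 - f t / m)) (deriv f t / (f t - m)) t := by
  have h0 : HasDerivAt f (deriv f t) t := (hf.differentiable (by norm_num) t).hasDerivAt
  have h1 : HasDerivAt (fun t => 1 - f t / m) (-(deriv f t / m)) t := (h0.div_const m).const_sub 1
  have h2 := h1.clog_real (slit m _ (h t))
  have hm := ne0 m _ (h t)
  have h3 := ne1 m _ (h t)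
  have h4 : m - f t ≠ 0 := fun h => h3 (by rw [← neg_sub, h, neg_zero])
  have e : -(deriv f t / m) / (1 - f t / m) = deriv f t / (f t - m) := by
    have e1 : 1 - f t / m = (m - f t) / m := by
      field_simp
    rw [e1, ← neg_sub m (f t)]
    field_simp
  rw [e] at h2
  exact h2

theorem t_H : Pool.Agent.N65.GP.S_H := by
  intro γ m c hm hc
  obtain ⟨L, hL⟩ : ∃ L : ℝ → ℂ, L = fun t => Complex.log (1 - γ.y t / m) := ⟨_, rfl⟩
  obtain ⟨M, hM⟩ : ∃ M : ℝ → ℂ, M = fun t => Complex.log (1 - γ.x t / c) := ⟨_, rfl⟩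
  obtain ⟨L', hL'⟩ : ∃ L' : ℝ → ℂ, L' = fun t => deriv γ.y t / (γ.y t - m) := ⟨_, rfl⟩
  obtain ⟨M', hM'⟩ : ∃ M' : ℝ → ℂ, M' = fun t => deriv γ.x t / (γ.x t - c) := ⟨_, rfl⟩
  have dL : ∀ t, HasDerivAt L (L' t) t := by
    intro t
    rw [hL, hL']
    exact dlog γ.y γ.hy m hm t
  have dM : ∀ t, HasDerivAt M (M' t) t := by
    intro t
    rw [hM, hM']
    exact dlog γ.x γ.hx c hc t
  have cL : Continuous L := continuous_iff_continuousAt.2 fun t => (dL t).continuousAt
  have cM : Continuous M := continuous_iff_continuousAt.2 fun t => (dM t).continuousAt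
  have cL' : Continuous L' := by
    rw [hL']
    exact (γ.hy.continuous_deriv le_rfl).div (γ.hy.continuous.sub continuous_const)
      fun t => ne1 m _ (hm t)
  have cM' : Continuous M' := by
    rw [hM']
    exact (γ.hx.continuous_deriv le_rfl).div (γ.hx.continuous.sub continuous_const)
      fun t => ne1 c _ (hc t)
  have e1 : (γ.int (ker m c)).im = ∫ t in (0 : ℝ)..1, (L t * M' t).im := by
    have e2 : γ.int (ker m c) = ∫ t in (0 : ℝ)..1, L t * M' t := by
      unfold Loop.int ker
      refine intervalIntegral.integral_congr fun t _ => ?_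
      simp only [hL, hM']
      ring
    rw [e2]
    exact (Complex.imCLM.intervalIntegral_comp_comm
      ((cL.mul cM').intervalIntegrable (μ := MeasureTheory.volume) 0 1)).symm
  have e3 : γ.reg m c = ∫ t in (0 : ℝ)..1, ((L t * M' t).im +
      (Real.log ‖m‖ * (M' t).im - Real.log ‖c‖ * (L' t).im -
        ((M' t).re * (L t).im + (M t).re * (L' t).im))) := by
    unfold Loop.reg
    refine intervalIntegral.integral_congr fun t _ => ?_
    rw [lognorm m _ (hm t), lognorm c _ (hc t), Complex.mul_im]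
    simp only [hL, hM, hL', hM']
    ring
  have cre : Continuous fun z : ℂ => z.re := Complex.continuous_re
  have cim : Continuous fun z : ℂ => z.im := Complex.continuous_im
  have c1 : Continuous fun t => (L t * M' t).im := cim.comp (cL.mul cM')
  have c2 : Continuous fun t => (Real.log ‖m‖ * (M' t).im - Real.log ‖c‖ * (L' t).im -
        ((M' t).re * (L t).im + (M t).re * (L' t).im)) := by
    have a1 := cim.comp cM'
    have a2 := cim.comp cL'
    have a3 := cre.comp cM'
    have a4 := cim.comp cL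
    have a5 := cre.comp cM
    exact ((continuous_const.mul a1).sub (continuous_const.mul a2)).sub ((a3.mul a4).add (a5.mul a2))
  rw [e1, e3, intervalIntegral.integral_add (c1.intervalIntegrable 0 1) (c2.intervalIntegrable 0 1)]
  have d1 : ∀ t, HasDerivAt (fun t => (M t).im) (M' t).im t := fun t =>
    Complex.imCLM.hasFDerivAt.comp_hasDerivAt t (dM t)
  have d2 : ∀ t, HasDerivAt (fun t => (L t).im) (L' t).im t := fun t =>
    Complex.imCLM.hasFDerivAt.comp_hasDerivAt t (dL t)
  have d3 : ∀ t, HasDerivAt (fun t => (M t).re) (M' t).re t := fun t =>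
    Complex.reCLM.hasFDerivAt.comp_hasDerivAt t (dM t)
  have d4 : ∀ t, HasDerivAt (fun t => Real.log ‖m‖ * (M t).im - Real.log ‖c‖ * (L t).im -
      (M t).re * (L t).im) (Real.log ‖m‖ * (M' t).im - Real.log ‖c‖ * (L' t).im -
        ((M' t).re * (L t).im + (M t).re * (L' t).im)) t := fun t =>
    (((d1 t).const_mul _).sub ((d2 t).const_mul _)).sub ((d3 t).mul (d2 t))
  rw [intervalIntegral.integral_eq_sub_of_hasDerivAt (fun t _ => d4 t)
    (c2.intervalIntegrable 0 1)]
  have p1 : L 1 = L 0 := by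
    rw [hL]
    simp only
    have := γ.py 0
    rw [zero_add] at this
    rw [this]
  have p2 : M 1 = M 0 := by
    rw [hM]
    simp only
    have := γ.px 0
    rw [zero_add] at this
    rw [this]
  rw [p1, p2]
  ring

end Pool.Agent.N933.GP
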